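import Mathlib

/-!
Exponential sums `∑ n ^ (i u)` over intervals in `[N, 2 N]` for `|u| ≤ N ^ K`
(van der Corput differencing and the Kusmin-Landau inequality).
-/

set_option autoImplicit false

namespace Pool.Agent.MR36

open Finset Complex

/-! ### Kusmin-Landau -/

theorem exp_sub_one_ge36 (d : ℝ) (h0 : 0 ≤ d) (h1 : d ≤ Real.pi) :
    2 / Real.pi * d ≤ ‖exp (I * d) - 1‖ := by
  rw [Complex.norm_exp_I_mul_ofReal_sub_one, Real.norm_eq_abs, abs_mul, abs_of_pos (by norm_num : (0:ℝ) < 2)]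
  have h2 : 2 / Real.pi * (d / 2) ≤ Real.sin (d / 2) :=
    Real.mul_le_sin (by linarith) (by linarith)
  have h3 : Real.sin (d / 2) ≤ |Real.sin (d / 2)| := le_abs_self _
  have : 2 / Real.pi * d = 2 * (2 / Real.pi * (d / 2)) := by ring
  rw [this]
  linarith

theorem exp_sub_exp_le36 (x y : ℝ) : ‖exp (I * x) - exp (I * y)‖ ≤ |x - y| := by
  have h : exp (I * x) - exp (I * y) = exp (I * y) * (exp (I * ((x - y : ℝ) : ℂ)) - 1) := by
    rw [mul_sub, ← Complex.exp_add, mul_one]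
    congr 2
    push_cast
    ring
  rw [h, norm_mul, mul_comm I (y : ℂ), Complex.norm_exp_ofReal_mul_I, one_mul,
    ← Real.norm_eq_abs]
  exact Real.norm_exp_I_mul_ofReal_sub_one_le

/-- `1 / (e ^ (i d) - 1)` -/
noncomputable def GG36 (d : ℝ) : ℂ := (exp (I * d) - 1)⁻¹

theorem GG_norm36 (d : ℝ) (h0 : 0 < d) (h1 : d ≤ Real.pi) :
    ‖GG36 d‖ ≤ Real.pi / 2 * d⁻¹ := by
  unfold GG36
  rw [norm_inv]
  have h := exp_sub_one_ge36 d h0.le h1
  have hp := Real.pi_pos
  have : 0 < 2 / Real.pi * d := by positivity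
  calc ‖exp (I * d) - 1‖⁻¹ ≤ (2 / Real.pi * d)⁻¹ := inv_anti₀ this h
    _ = Real.pi / 2 * d⁻¹ := by rw [mul_inv, inv_div]

theorem GG_ne36 (d : ℝ) (h0 : 0 < d) (h1 : d ≤ Real.pi) : exp (I * d) - 1 ≠ 0 := by
  have h := exp_sub_one_ge36 d h0.le h1
  have hp := Real.pi_pos
  have : 0 < 2 / Real.pi * d := by positivity
  intro h2
  rw [h2, norm_zero] at h
  linarith

theorem GG_sub36 (d e : ℝ) (h0 : 0 < d) (h1 : d ≤ Real.pi) (he : 0 < e) (hde : e ≤ d) :
    ‖GG36 e - GG36 d‖ ≤ Real.pi ^ 2 / 4 * (e⁻¹ - d⁻¹) := by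
  have hd0 := GG_ne36 d h0 h1
  have he0 := GG_ne36 e he (hde.trans h1)
  have e1 : GG36 e - GG36 d = (exp (I * d) - exp (I * e)) * (GG36 e * GG36 d) := by
    unfold GG36
    field_simp
    ring
  rw [e1, norm_mul, norm_mul]
  have a1 := exp_sub_exp_le36 d e
  rw [abs_of_nonneg (by linarith)] at a1
  have a2 := GG_norm36 e he (hde.trans h1)
  have a3 := GG_norm36 d h0 h1
  calc ‖exp (I * d) - exp (I * e)‖ * (‖GG36 e‖ * ‖GG36 d‖)
      ≤ (d - e) * ((Real.pi / 2 * e⁻¹) * (Real.pi / 2 * d⁻¹)) := by gcongr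
    _ = Real.pi ^ 2 / 4 * (e⁻¹ - d⁻¹) := by field_simp; ring

/-- Kusmin-Landau for sums over `range`. -/
theorem kl_range36 (φ : ℕ → ℝ) (lam : ℝ) (hl : 0 < lam) (m : ℕ)
    (h1 : ∀ j ≤ m, lam ≤ φ (j + 1) - φ j ∧ φ (j + 1) - φ j ≤ Real.pi)
    (h2 : ∀ j < m, φ (j + 2) - φ (j + 1) ≤ φ (j + 1) - φ j) :
    ‖∑ j ∈ range (m + 1), exp (I * φ j)‖ ≤ 6 / lam := by
  have key : ∀ m : ℕ, (∀ j ≤ m, lam ≤ φ (j + 1) - φ j ∧ φ (j + 1) - φ j ≤ Real.pi) →
      (∀ j < m, φ (j + 2) - φ (j + 1) ≤ φ (j + 1) - φ j) →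
      ‖∑ j ∈ range (m + 1), exp (I * φ j) - exp (I * φ (m + 1)) * GG36 (φ (m + 1) - φ m)‖ ≤
        ‖GG36 (φ 1 - φ 0)‖ + Real.pi ^ 2 / 4 * ((φ (m + 1) - φ m)⁻¹ - (φ 1 - φ 0)⁻¹) := by
    intro m
    induction m with
    | zero =>
      intro h1 _
      have h := h1 0 le_rfl
      simp only [zero_add] at h
      have hne := GG_ne36 (φ 1 - φ 0) (by linarith) h.2
      have e1 : ∑ j ∈ range (0 + 1), exp (I * φ j) -
          exp (I * φ (0 + 1)) * GG36 (φ (0 + 1) - φ 0) = - exp (I * φ 0) * GG36 (φ 1 - φ 0) := by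
        simp only [zero_add, sum_range_one]
        unfold GG36
        have e2 : exp (I * φ 1) = exp (I * φ 0) * exp (I * ((φ 1 - φ 0 : ℝ) : ℂ)) := by
          rw [← Complex.exp_add]
          congr 1
          push_cast
          ring
        rw [e2]
        field_simp
        ring
      rw [e1, norm_mul, norm_neg, mul_comm I, Complex.norm_exp_ofReal_mul_I, one_mul]
      simp
    | succ m ih =>
      intro h1 h2
      have ih' := ih (fun j hj => h1 j (by omega)) (fun j hj => h2 j (by omega))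
      have hm := h1 m (by omega)
      have hm1 := h1 (m + 1) le_rfl
      have hmm := h2 m (by omega)
      have hne := GG_ne36 (φ (m + 1 + 1) - φ (m + 1)) (by linarith) hm1.2
      have e1 : ∑ j ∈ range (m + 1 + 1), exp (I * φ j) -
          exp (I * φ (m + 1 + 1)) * GG36 (φ (m + 1 + 1) - φ (m + 1)) =
          (∑ j ∈ range (m + 1), exp (I * φ j) - exp (I * φ (m + 1)) * GG36 (φ (m + 1) - φ m)) -
          exp (I * φ (m + 1)) *
            (GG36 (φ (m + 1 + 1) - φ (m + 1)) - GG36 (φ (m + 1) - φ m)) := by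
        rw [sum_range_succ _ (m + 1)]
        have e2 : exp (I * φ (m + 1 + 1)) =
            exp (I * φ (m + 1)) * exp (I * ((φ (m + 1 + 1) - φ (m + 1) : ℝ) : ℂ)) := by
          rw [← Complex.exp_add]
          congr 1
          push_cast
          ring
        have e3 : exp (I * φ (m + 1)) - exp (I * φ (m + 1 + 1)) *
            GG36 (φ (m + 1 + 1) - φ (m + 1)) =
            - exp (I * φ (m + 1)) * GG36 (φ (m + 1 + 1) - φ (m + 1)) := by
          rw [e2]
          unfold GG36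
          field_simp
          ring
        linear_combination e3
      rw [e1]
      refine (norm_sub_le _ _).trans ?_
      rw [norm_mul, mul_comm I (φ (m + 1) : ℂ), Complex.norm_exp_ofReal_mul_I, one_mul]
      have h3 := GG_sub36 (φ (m + 1) - φ m) (φ (m + 1 + 1) - φ (m + 1)) (by linarith) hm.2
        (by linarith) hmm
      rw [mul_comm I (φ (m + 1) : ℂ)] at ih'
      linarith
  have h := key m h1 h2
  have hm := h1 m le_rfl
  have h0 := h1 0 (Nat.zero_le _)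
  simp only [zero_add] at h0
  have g1 := GG_norm36 (φ 1 - φ 0) (by linarith) h0.2
  have g2 := GG_norm36 (φ (m + 1) - φ m) (by linarith) hm.2
  have i1 : (φ (m + 1) - φ m)⁻¹ ≤ lam⁻¹ := inv_anti₀ hl hm.1
  have i2 : (φ 1 - φ 0)⁻¹ ≤ lam⁻¹ := inv_anti₀ hl h0.1
  have i3 : 0 < (φ 1 - φ 0)⁻¹ := inv_pos.2 (by linarith)
  have hp := Real.pi_pos
  have hp2 : Real.pi ≤ 3.15 := Real.pi_lt_d2.le
  have t1 : ‖∑ j ∈ range (m + 1), exp (I * φ j)‖ ≤
      ‖∑ j ∈ range (m + 1), exp (I * φ j) - exp (I * φ (m + 1)) * GG36 (φ (m + 1) - φ m)‖ +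
      ‖GG36 (φ (m + 1) - φ m)‖ := by
    have := norm_add_le (∑ j ∈ range (m + 1), exp (I * φ j) -
      exp (I * φ (m + 1)) * GG36 (φ (m + 1) - φ m))
      (exp (I * φ (m + 1)) * GG36 (φ (m + 1) - φ m))
    rw [sub_add_cancel] at this
    refine this.trans ?_
    rw [norm_mul (exp (I * φ (m + 1))), mul_comm I (φ (m + 1) : ℂ),
      Complex.norm_exp_ofReal_mul_I, one_mul]
  have j1 : Real.pi / 2 * (φ 1 - φ 0)⁻¹ ≤ Real.pi / 2 * lam⁻¹ := by gcongr
  have j2 : Real.pi / 2 * (φ (m + 1) - φ m)⁻¹ ≤ Real.pi / 2 * lam⁻¹ := by gcongr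
  have j3 : Real.pi ^ 2 / 4 * ((φ (m + 1) - φ m)⁻¹ - (φ 1 - φ 0)⁻¹) ≤
      Real.pi ^ 2 / 4 * lam⁻¹ := by
    gcongr
    linarith
  have hli : 0 < lam⁻¹ := inv_pos.2 hl
  rw [div_eq_mul_inv]
  have j4 : Real.pi / 2 + Real.pi ^ 2 / 4 + Real.pi / 2 ≤ 6 := by nlinarith
  nlinarith

/-! ### The inequality of van der Corput -/

/-- sum over an interval of integers -/
noncomputable def SS36 (a b : ℤ) (z : ℤ → ℂ) : ℂ := ∑ n ∈ Ico a b, z n

/-- multiplicative difference -/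
noncomputable def DD36 (h : ℕ) (z : ℤ → ℂ) (n : ℤ) : ℂ := z (n + h) * (starRingEnd ℂ) (z n)

/-- bounded by one, supported in `[a, b)` -/
def Ok36 (a b : ℤ) (z : ℤ → ℂ) : Prop := (∀ n, ‖z n‖ ≤ 1) ∧ ∀ n, n ∉ Ico a b → z n = 0

theorem Ok_DD36 {a b : ℤ} {z : ℤ → ℂ} (hz : Ok36 a b z) (h : ℕ) : Ok36 a b (DD36 h z) := by
  refine ⟨fun n => ?_, fun n hn => ?_⟩
  · unfold DD36
    rw [norm_mul, RCLike.norm_conj]
    exact mul_le_one₀ (hz.1 _) (norm_nonneg _) (hz.1 _)
  · unfold DD36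
    rw [hz.2 n hn, map_zero, mul_zero]

theorem SS_shift36 {a b : ℤ} {z : ℤ → ℂ} (hz : Ok36 a b z) (c d : ℤ) (j : ℤ)
    (hc : c + j ≤ a) (hd : b ≤ d + j) : ∑ m ∈ Ico c d, z (m + j) = SS36 a b z := by
  have e1 : ∑ m ∈ Ico c d, z (m + j) = ∑ m ∈ Ico (c + j) (d + j), z m := by
    rw [← Finset.map_add_right_Ico, Finset.sum_map]
    rfl
  rw [e1]
  unfold SS36
  symm
  apply Finset.sum_subset
  · intro x hx
    rw [Finset.mem_Ico] at hx ⊢
    omega
  · intro x _ hx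
    exact hz.2 x hx

theorem corr_neg36 {a b : ℤ} {z : ℤ → ℂ} (hz : Ok36 a b z) (c d : ℤ) (i j : ℕ) (hij : j ≤ i)
    (hc : c + i ≤ a) (hd : b ≤ d + j) :
    ∑ m ∈ Ico c d, z (m + i) * (starRingEnd ℂ) (z (m + j)) = SS36 a b (DD36 (i - j) z) := by
  rw [← SS_shift36 (Ok_DD36 hz (i - j)) c d j (by omega) hd]
  refine Finset.sum_congr rfl fun m _ => ?_
  unfold DD36
  congr 2
  push_cast [hij]
  ring

theorem vdc36 {a b : ℤ} {z : ℤ → ℂ} (hz : Ok36 a b z) (N : ℝ) (H : ℕ) (hH : 1 ≤ H)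
    (hN : (b - a : ℤ) ≤ N) (hHN : (H : ℝ) ≤ N) (hab : a ≤ b) :
    ‖SS36 a b z‖ ^ 2 ≤ 2 * N / H * (N + 2 * ∑ h ∈ Icc 1 H, ‖SS36 a b (DD36 h z)‖) := by
  have hH' : (0 : ℝ) < H := by exact_mod_cast hH
  have hN0 : 0 < N := lt_of_lt_of_le hH' hHN
  set I := Ico (a - H) b with hI
  set W : ℤ → ℂ := fun m => ∑ j ∈ range H, z (m + j) with hW
  have e1 : (H : ℂ) * SS36 a b z = ∑ m ∈ I, W m := by
    have h1 : ∀ j ∈ range H, ∑ m ∈ I, z (m + (j : ℤ)) = SS36 a b z := by
      intro j hj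
      have := Finset.mem_range.1 hj
      exact SS_shift36 hz (a - H) b (j : ℤ) (by omega) (by omega)
    rw [hW, Finset.sum_comm, Finset.sum_congr rfl h1, Finset.sum_const, card_range, nsmul_eq_mul]
  have e2 : ‖∑ m ∈ I, W m‖ ^ 2 ≤ (I.card : ℝ) * ∑ m ∈ I, ‖W m‖ ^ 2 := by
    have h1 : ‖∑ m ∈ I, W m‖ ≤ ∑ m ∈ I, ‖W m‖ := norm_sum_le _ _
    have h2 : (∑ m ∈ I, ‖W m‖) ^ 2 ≤ (I.card : ℝ) * ∑ m ∈ I, ‖W m‖ ^ 2 :=
      sq_sum_le_card_mul_sum_sq
    exact (pow_le_pow_left₀ (norm_nonneg _) h1 2).trans h2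
  have hcard : (I.card : ℝ) ≤ 2 * N := by
    have : (I.card : ℤ) = b - (a - H) := by
      rw [hI, Int.card_Ico, Int.toNat_of_nonneg (by omega)]
    have h2 : (I.card : ℝ) = ((b - a : ℤ) : ℝ) + H := by
      have h3 : ((I.card : ℤ) : ℝ) = ((b - (a - H) : ℤ) : ℝ) := by rw [this]
      push_cast at h3 ⊢
      linarith
    rw [h2]; linarith
  have e3 : ∑ m ∈ I, ‖W m‖ ^ 2 ≤ H * (N + 2 * ∑ h ∈ Icc 1 H, ‖SS36 a b (DD36 h z)‖) := by
    -- expand the square
    have h1 : ((∑ m ∈ I, ‖W m‖ ^ 2 : ℝ) : ℂ) = ∑ i ∈ range H, ∑ j ∈ range H,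
        ∑ m ∈ I, z (m + i) * (starRingEnd ℂ) (z (m + j)) := by
      push_cast
      have : ∀ m ∈ I, ((‖W m‖ : ℂ)) ^ 2 = ∑ i ∈ range H, ∑ j ∈ range H,
          z (m + i) * (starRingEnd ℂ) (z (m + j)) := by
        intro m _
        rw [← Complex.mul_conj', hW]
        simp only
        rw [map_sum, Finset.sum_mul_sum]
      rw [Finset.sum_congr rfl this, Finset.sum_comm]
      refine Finset.sum_congr rfl fun i _ => ?_
      rw [Finset.sum_comm]
    have h2 : ∀ i ∈ range H, ∀ j ∈ range H,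
        ‖∑ m ∈ I, z (m + i) * (starRingEnd ℂ) (z (m + j))‖ =
          ‖SS36 a b (DD36 (i - j + (j - i)) z)‖ := by
      intro i hi j hj
      rw [Finset.mem_range] at hi hj
      rcases le_total j i with h | h
      · rw [hI, corr_neg36 hz (a - H) b i j h (by omega) (by omega)]
        congr 3
        omega
      · have h3 : ∑ m ∈ I, z (m + i) * (starRingEnd ℂ) (z (m + j)) =
            (starRingEnd ℂ) (∑ m ∈ I, z (m + j) * (starRingEnd ℂ) (z (m + i))) := by
          rw [map_sum]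
          refine Finset.sum_congr rfl fun m _ => ?_
          rw [map_mul, Complex.conj_conj, mul_comm]
        rw [h3, RCLike.norm_conj, hI, corr_neg36 hz (a - H) b j i h (by omega) (by omega)]
        congr 3
        omega
    have h4 : ∑ m ∈ I, ‖W m‖ ^ 2 ≤ ∑ i ∈ range H, ∑ j ∈ range H,
        ‖SS36 a b (DD36 (i - j + (j - i)) z)‖ := by
      have h5 : ‖((∑ m ∈ I, ‖W m‖ ^ 2 : ℝ) : ℂ)‖ = ∑ m ∈ I, ‖W m‖ ^ 2 := by
        rw [Complex.norm_real, Real.norm_eq_abs, abs_of_nonneg]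
        exact Finset.sum_nonneg fun _ _ => by positivity
      rw [← h5, h1]
      refine (norm_sum_le _ _).trans (Finset.sum_le_sum fun i hi => ?_)
      refine (norm_sum_le _ _).trans (Finset.sum_le_sum fun j hj => ?_)
      exact (h2 i hi j hj).le
    have h6 : ∀ i ∈ range H, ∑ j ∈ range H, ‖SS36 a b (DD36 (i - j + (j - i)) z)‖ ≤
        N + 2 * ∑ h ∈ Icc 1 H, ‖SS36 a b (DD36 h z)‖ := by
      intro i hi
      rw [Finset.mem_range] at hi
      have h0 : ‖SS36 a b (DD36 0 z)‖ ≤ N := by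
        unfold SS36
        refine (norm_sum_le _ _).trans ?_
        refine (Finset.sum_le_sum fun n _ => (Ok_DD36 hz 0).1 n).trans ?_
        rw [Finset.sum_const, nsmul_eq_mul, mul_one, Int.card_Ico]
        have : (((b - a).toNat : ℤ) : ℝ) = ((b - a : ℤ) : ℝ) := by
          rw [Int.toNat_of_nonneg (by omega)]
        calc (((b - a).toNat : ℕ) : ℝ) = (((b - a).toNat : ℤ) : ℝ) := by push_cast; rfl
          _ = ((b - a : ℤ) : ℝ) := this
          _ ≤ N := hN
      -- split the sum at i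
      have hsplit : ∑ j ∈ range H, ‖SS36 a b (DD36 (i - j + (j - i)) z)‖ =
          ∑ j ∈ range i, ‖SS36 a b (DD36 (i - j + (j - i)) z)‖ +
          ∑ j ∈ Ico i H, ‖SS36 a b (DD36 (i - j + (j - i)) z)‖ :=
        (Finset.sum_range_add_sum_Ico _ hi.le).symm
      have hA : ∑ j ∈ range i, ‖SS36 a b (DD36 (i - j + (j - i)) z)‖ ≤
          ∑ h ∈ Icc 1 H, ‖SS36 a b (DD36 h z)‖ := by
        have : ∑ j ∈ range i, ‖SS36 a b (DD36 (i - j + (j - i)) z)‖ =
            ∑ h ∈ Icc 1 i, ‖SS36 a b (DD36 h z)‖ := by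
          apply Finset.sum_bij' (fun j _ => i - j) (fun h _ => i - h)
          · intro j hj
            rw [Finset.mem_range] at hj
            rw [Finset.mem_Icc]; omega
          · intro h hh
            rw [Finset.mem_Icc] at hh
            rw [Finset.mem_range]; omega
          · intro j hj
            rw [Finset.mem_range] at hj
            omega
          · intro h hh
            rw [Finset.mem_Icc] at hh
            omega
          · intro j hj
            rw [Finset.mem_range] at hj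
            congr 3
            omega
        rw [this]
        exact Finset.sum_le_sum_of_subset_of_nonneg
          (Finset.Icc_subset_Icc le_rfl hi.le) fun _ _ _ => norm_nonneg _
      have hB : ∑ j ∈ Ico i H, ‖SS36 a b (DD36 (i - j + (j - i)) z)‖ ≤
          N + ∑ h ∈ Icc 1 H, ‖SS36 a b (DD36 h z)‖ := by
        rw [Finset.sum_eq_sum_Ico_succ_bot hi]
        have e0 : i - i + (i - i) = 0 := by omega
        rw [e0]
        refine add_le_add h0 ?_
        have : ∑ j ∈ Ico (i + 1) H, ‖SS36 a b (DD36 (i - j + (j - i)) z)‖ =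
            ∑ h ∈ Ico 1 (H - i), ‖SS36 a b (DD36 h z)‖ := by
          apply Finset.sum_bij' (fun j _ => j - i) (fun h _ => h + i)
          · intro j hj
            rw [Finset.mem_Ico] at hj ⊢
            omega
          · intro h hh
            rw [Finset.mem_Ico] at hh ⊢
            omega
          · intro j hj
            rw [Finset.mem_Ico] at hj
            omega
          · intro h hh
            omega
          · intro j hj
            rw [Finset.mem_Ico] at hj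
            congr 3
            omega
        rw [this]
        refine Finset.sum_le_sum_of_subset_of_nonneg (fun x hx => ?_)
          fun _ _ _ => norm_nonneg _
        rw [Finset.mem_Ico] at hx
        rw [Finset.mem_Icc]
        omega
      rw [hsplit]
      linarith
    refine h4.trans ((Finset.sum_le_sum h6).trans ?_)
    rw [Finset.sum_const, card_range, nsmul_eq_mul]
  have e4 : (H : ℝ) ^ 2 * ‖SS36 a b z‖ ^ 2 ≤
      2 * N * (H * (N + 2 * ∑ h ∈ Icc 1 H, ‖SS36 a b (DD36 h z)‖)) := by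
    have h1 : (H : ℝ) ^ 2 * ‖SS36 a b z‖ ^ 2 = ‖∑ m ∈ I, W m‖ ^ 2 := by
      rw [← e1, norm_mul, mul_pow, Complex.norm_natCast]
    rw [h1]
    refine e2.trans ?_
    have h3 : 0 ≤ ∑ m ∈ I, ‖W m‖ ^ 2 := Finset.sum_nonneg fun _ _ => by positivity
    calc (I.card : ℝ) * ∑ m ∈ I, ‖W m‖ ^ 2 ≤ 2 * N * ∑ m ∈ I, ‖W m‖ ^ 2 :=
          mul_le_mul_of_nonneg_right hcard h3
      _ ≤ _ := mul_le_mul_of_nonneg_left e3 (by positivity)
  have e5 : ‖SS36 a b z‖ ^ 2 = (H : ℝ) ^ 2 * ‖SS36 a b z‖ ^ 2 / (H : ℝ) ^ 2 := by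
    field_simp
  rw [e5, div_le_iff₀ (by positivity)]
  refine e4.trans (le_of_eq ?_)
  field_simp

/-! ### Iteration -/

/-- iterated averages of multiplicative differences -/
noncomputable def BB36 (a b : ℤ) (H : ℕ) (N : ℝ) : ℕ → (ℤ → ℂ) → ℝ
  | 0, z => ‖SS36 a b z‖ / N
  | k + 1, z => (∑ h ∈ Icc 1 H, BB36 a b H N k (DD36 h z)) / H

theorem BB_nonneg36 (a b : ℤ) (H : ℕ) (N : ℝ) (hN : 0 ≤ N) :
    ∀ k z, 0 ≤ BB36 a b H N k z := by
  intro k
  induction k with
  | zero => intro z; exact div_nonneg (norm_nonneg _) hN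
  | succ k ih =>
    intro z
    exact div_nonneg (Finset.sum_nonneg fun h _ => ih _) (Nat.cast_nonneg _)

theorem BB_step36 {a b : ℤ} (H : ℕ) (N : ℝ) (hH : 1 ≤ H) (hN : (b - a : ℤ) ≤ N)
    (hHN : (H : ℝ) ≤ N) (hab : a ≤ b) :
    ∀ k z, Ok36 a b z → BB36 a b H N k z ^ 2 ≤ 2 / H + 4 * BB36 a b H N (k + 1) z := by
  have hH' : (0 : ℝ) < H := by exact_mod_cast hH
  have hN0 : 0 < N := lt_of_lt_of_le hH' hHN
  intro k
  induction k with
  | zero =>
    intro z hz
    have h := vdc36 hz N H hH hN hHN hab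
    show (‖SS36 a b z‖ / N) ^ 2 ≤ 2 / H + 4 * ((∑ h ∈ Icc 1 H, ‖SS36 a b (DD36 h z)‖ / N) / H)
    rw [div_pow, ← Finset.sum_div, div_le_iff₀ (by positivity)]
    refine h.trans (le_of_eq ?_)
    field_simp
    ring
  | succ k ih =>
    intro z hz
    show ((∑ h ∈ Icc 1 H, BB36 a b H N k (DD36 h z)) / H) ^ 2 ≤
      2 / H + 4 * ((∑ h ∈ Icc 1 H, BB36 a b H N (k + 1) (DD36 h z)) / H)
    have h1 : (∑ h ∈ Icc 1 H, BB36 a b H N k (DD36 h z)) ^ 2 ≤
        (H : ℝ) * ∑ h ∈ Icc 1 H, BB36 a b H N k (DD36 h z) ^ 2 := by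
      have := sq_sum_le_card_mul_sum_sq (s := Icc 1 H)
        (f := fun h => BB36 a b H N k (DD36 h z))
      rwa [Nat.card_Icc, Nat.add_sub_cancel] at this
    have h2 : ∑ h ∈ Icc 1 H, BB36 a b H N k (DD36 h z) ^ 2 ≤
        H * (2 / H) + 4 * ∑ h ∈ Icc 1 H, BB36 a b H N (k + 1) (DD36 h z) := by
      refine (Finset.sum_le_sum fun h _ => ih (DD36 h z) (Ok_DD36 hz h)).trans ?_
      rw [Finset.sum_add_distrib, Finset.sum_const, Nat.card_Icc, Nat.add_sub_cancel,
        nsmul_eq_mul, ← Finset.mul_sum]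
    rw [div_pow, div_le_iff₀ (by positivity)]
    refine h1.trans ((mul_le_mul_of_nonneg_left h2 hH'.le).trans (le_of_eq ?_))
    field_simp

/-- constants -/
noncomputable def CC36 : ℕ → ℝ
  | 0 => 1
  | k + 1 => 8 * CC36 k ^ 2

theorem CC_ge36 : ∀ k, 1 ≤ CC36 k := by
  intro k
  induction k with
  | zero => exact le_rfl
  | succ k ih =>
    show (1 : ℝ) ≤ 8 * CC36 k ^ 2
    nlinarith

theorem BB_pow36 {a b : ℤ} (H : ℕ) (N : ℝ) (hH : 1 ≤ H) (hN : (b - a : ℤ) ≤ N)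
    (hHN : (H : ℝ) ≤ N) (hab : a ≤ b) (z : ℤ → ℂ) (hz : Ok36 a b z) :
    ∀ k, (‖SS36 a b z‖ / N) ^ (2 ^ k) ≤ CC36 k * (1 / H + BB36 a b H N k z) := by
  have hH' : (1 : ℝ) ≤ H := by exact_mod_cast hH
  have hN0 : 0 < N := by linarith
  intro k
  induction k with
  | zero =>
    show (‖SS36 a b z‖ / N) ^ 1 ≤ 1 * (1 / H + ‖SS36 a b z‖ / N)
    have : (0 : ℝ) ≤ 1 / H := by positivity
    rw [pow_one, one_mul]
    linarith
  | succ k ih =>
    have hB := BB_nonneg36 a b H N hN0.le k z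
    have hB' := BB_nonneg36 a b H N hN0.le (k + 1) z
    have hs := BB_step36 H N hH hN hHN hab k z hz
    have hC := CC_ge36 k
    have h0 : 0 ≤ (‖SS36 a b z‖ / N) ^ (2 ^ k) := by positivity
    have hx0 : (0 : ℝ) ≤ 1 / H := by positivity
    have hx1 : 1 / (H : ℝ) ≤ 1 := by rw [div_le_one (by linarith)]; exact hH'
    have h1 := pow_le_pow_left₀ h0 ih 2
    rw [← pow_mul, ← pow_succ] at h1
    refine h1.trans ?_
    show (CC36 k * (1 / H + BB36 a b H N k z)) ^ 2 ≤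
      8 * CC36 k ^ 2 * (1 / H + BB36 a b H N (k + 1) z)
    have h2 : (1 / (H : ℝ) + BB36 a b H N k z) ^ 2 ≤
        8 * (1 / H + BB36 a b H N (k + 1) z) := by
      have h3 : (2 : ℝ) / H = 2 * (1 / H) := by ring
      rw [h3] at hs
      nlinarith [sq_nonneg (1 / (H : ℝ) - BB36 a b H N k z)]
    rw [mul_pow, mul_comm (8 : ℝ), mul_assoc]
    exact mul_le_mul_of_nonneg_left h2 (by positivity)

/-! ### Phases -/

/-- exponential of a phase on an interval -/
noncomputable def PP36 (a b : ℤ) (φ : ℤ → ℝ) (n : ℤ) : ℂ :=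
  if n ∈ Ico a b then exp (I * φ n) else 0

theorem Ok_PP36 {a b b' : ℤ} (hb : b' ≤ b) (φ : ℤ → ℝ) : Ok36 a b (PP36 a b' φ) := by
  refine ⟨fun n => ?_, fun n hn => ?_⟩
  · unfold PP36
    split_ifs
    · rw [mul_comm, Complex.norm_exp_ofReal_mul_I]
    · simp
  · unfold PP36
    rw [if_neg]
    rw [Finset.mem_Ico] at hn ⊢
    omega

theorem DD_PP36 (a b : ℤ) (h : ℕ) (φ : ℤ → ℝ) :
    DD36 h (PP36 a b φ) = PP36 a (b - h) (fun n => φ (n + h) - φ n) := by
  funext n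
  unfold DD36 PP36
  by_cases h1 : n ∈ Ico a (b - h)
  · rw [Finset.mem_Ico] at h1
    rw [if_pos (Finset.mem_Ico.2 (by omega)), if_pos (Finset.mem_Ico.2 (by omega)),
      if_pos (Finset.mem_Ico.2 (by omega))]
    rw [← Complex.exp_conj, ← Complex.exp_add]
    congr 1
    rw [map_mul, Complex.conj_I, Complex.conj_ofReal]
    push_cast
    ring
  · rw [if_neg h1]
    by_cases h2 : n ∈ Ico a b
    · rw [if_neg, zero_mul]
      rw [Finset.mem_Ico] at h1 h2 ⊢
      omega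
    · rw [if_neg h2, map_zero, mul_zero]

/-- iterated forward differences -/
def dd36 : ℕ → (ℤ → ℝ) → ℤ → ℝ
  | 0, φ => φ
  | k + 1, φ => fun n => dd36 k φ (n + 1) - dd36 k φ n

theorem dd_sub36 (φ ψ : ℤ → ℝ) : ∀ k n, dd36 k (fun m => φ m - ψ m) n = dd36 k φ n - dd36 k ψ n := by
  intro k
  induction k with
  | zero => intro n; rfl
  | succ k ih =>
    intro n
    show dd36 k (fun m => φ m - ψ m) (n + 1) - dd36 k (fun m => φ m - ψ m) n =
      (dd36 k φ (n + 1) - dd36 k φ n) - (dd36 k ψ (n + 1) - dd36 k ψ n)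
    rw [ih, ih]; ring

theorem dd_shift36 (φ : ℤ → ℝ) (c : ℤ) : ∀ k n, dd36 k (fun m => φ (m + c)) n = dd36 k φ (n + c) := by
  intro k
  induction k with
  | zero => intro n; rfl
  | succ k ih =>
    intro n
    show dd36 k (fun m => φ (m + c)) (n + 1) - dd36 k (fun m => φ (m + c)) n =
      dd36 k φ (n + c + 1) - dd36 k φ (n + c)
    rw [ih, ih, add_right_comm]

theorem dd_diff36 (φ : ℤ → ℝ) (h : ℕ) (k : ℕ) (n : ℤ) :
    dd36 k (fun m => φ (m + h) - φ m) n = ∑ j ∈ range h, dd36 (k + 1) φ (n + j) := by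
  rw [dd_sub36 (fun m => φ (m + h)) φ, dd_shift36]
  induction h with
  | zero => simp
  | succ h ih =>
    rw [Finset.sum_range_succ, ← ih]
    show dd36 k φ (n + ((h + 1 : ℕ) : ℤ)) - dd36 k φ n =
      dd36 k φ (n + h) - dd36 k φ n + (dd36 k φ (n + h + 1) - dd36 k φ (n + h))
    have : n + ((h + 1 : ℕ) : ℤ) = n + h + 1 := by push_cast; ring
    rw [this]
    ring

/-- phases with controlled difference of order `k + 1` -/
def InC36 (k : ℕ) (lo hi : ℝ) (φ : ℤ → ℝ) (a b : ℤ) : Prop :=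
  (∀ n, a ≤ n → n + k + 1 < b → lo ≤ dd36 (k + 1) φ n ∧ dd36 (k + 1) φ n ≤ hi) ∧
  ∀ n, a ≤ n → n + k + 2 < b → dd36 (k + 1) φ (n + 1) ≤ dd36 (k + 1) φ n

theorem InC_diff36 {k : ℕ} {lo hi : ℝ} {φ : ℤ → ℝ} {a b : ℤ} (hφ : InC36 (k + 1) lo hi φ a b)
    (h : ℕ) : InC36 k (h * lo) (h * hi) (fun m => φ (m + h) - φ m) a (b - h) := by
  refine ⟨fun n hn hn2 => ?_, fun n hn hn2 => ?_⟩
  · rw [dd_diff36]
    have key : ∀ j ∈ range h, lo ≤ dd36 (k + 1 + 1) φ (n + j) ∧ dd36 (k + 1 + 1) φ (n + j) ≤ hi := by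
      intro j hj
      have := Finset.mem_range.1 hj
      exact hφ.1 (n + j) (by omega) (by push_cast; omega)
    constructor
    · have := Finset.card_nsmul_le_sum (range h) (fun j => dd36 (k + 1 + 1) φ (n + j)) lo
        (fun j hj => (key j hj).1)
      rwa [card_range, nsmul_eq_mul] at this
    · have := Finset.sum_le_card_nsmul (range h) (fun j => dd36 (k + 1 + 1) φ (n + j)) hi
        (fun j hj => (key j hj).2)
      rwa [card_range, nsmul_eq_mul] at this
  · rw [dd_diff36, dd_diff36]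
    refine Finset.sum_le_sum fun j hj => ?_
    have := Finset.mem_range.1 hj
    have h2 := hφ.2 (n + j) (by omega) (by push_cast; omega)
    rwa [show n + 1 + (j : ℤ) = n + j + 1 from by ring]

theorem SS_PP36 {a b b' : ℤ} (hb : b' ≤ b) (φ : ℤ → ℝ) :
    SS36 a b (PP36 a b' φ) = ∑ n ∈ Ico a b', exp (I * φ n) := by
  unfold SS36 PP36
  rw [← Finset.sum_filter]
  congr 1
  ext n
  rw [Finset.mem_filter, Finset.mem_Ico, Finset.mem_Ico]
  omega

/-- Kusmin-Landau for sums over an interval of integers. -/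
theorem kl36 {a b : ℤ} {lo hi : ℝ} {φ : ℤ → ℝ} (hφ : InC36 0 lo hi φ a b) (hlo : 0 < lo)
    (hlh : lo ≤ hi) (hpi : hi ≤ Real.pi) : ‖∑ n ∈ Ico a b, exp (I * φ n)‖ ≤ 10 / lo := by
  have hp : Real.pi ≤ 4 := Real.pi_le_four
  have h10 : 4 / lo ≥ 1 := by
    rw [ge_iff_le, one_le_div hlo]; linarith
  rcases le_or_gt b a with h | h
  · rw [Finset.Ico_eq_empty (by omega), Finset.sum_empty, norm_zero]
    positivity
  rcases Int.lt_or_eq_of_le (show a + 1 ≤ b by omega) with h2 | h2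
  · obtain ⟨m, hm⟩ : ∃ m : ℕ, b = a + m + 2 := ⟨(b - a - 2).toNat, by omega⟩
    have e1 : Ico a b = Ico a (a + m + 1) ∪ {a + m + 1} := by
      ext n
      rw [Finset.mem_union, Finset.mem_Ico, Finset.mem_Ico, Finset.mem_singleton]
      omega
    rw [e1, Finset.sum_union (by
      rw [Finset.disjoint_singleton_right, Finset.mem_Ico]; omega), Finset.sum_singleton]
    have e2 : ∑ n ∈ Ico a (a + m + 1), exp (I * φ n) =
        ∑ j ∈ range (m + 1), exp (I * ((fun j : ℕ => φ (a + j)) j : ℝ)) := by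
      symm
      apply Finset.sum_bij' (fun (j : ℕ) _ => a + (j : ℤ)) (fun (n : ℤ) _ => (n - a).toNat)
      · intro j hj
        rw [Finset.mem_range] at hj
        rw [Finset.mem_Ico]; omega
      · intro n hn
        rw [Finset.mem_Ico] at hn
        rw [Finset.mem_range]; omega
      · intro j hj; omega
      · intro n hn
        rw [Finset.mem_Ico] at hn
        omega
      · intro j hj; rfl
    have h3 := kl_range36 (fun j : ℕ => φ (a + j)) lo hlo m (fun j hj => by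
      have := hφ.1 (a + j) (by omega) (by push_cast; omega)
      have e3 : dd36 (0 + 1) φ (a + j) = φ (a + ((j + 1 : ℕ) : ℤ)) - φ (a + j) := by
        show φ (a + j + 1) - φ (a + j) = _
        congr 2
        push_cast; ring
      rw [e3] at this
      exact ⟨this.1, this.2.trans hpi⟩) (fun j hj => by
      have := hφ.2 (a + j) (by omega) (by push_cast; omega)
      have e3 : dd36 (0 + 1) φ (a + j) = φ (a + ((j + 1 : ℕ) : ℤ)) - φ (a + j) := by
        show φ (a + j + 1) - φ (a + j) = _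
        congr 2
        push_cast; ring
      have e4 : dd36 (0 + 1) φ (a + j + 1) =
          φ (a + ((j + 2 : ℕ) : ℤ)) - φ (a + ((j + 1 : ℕ) : ℤ)) := by
        show φ (a + j + 1 + 1) - φ (a + j + 1) = _
        congr 2
        · push_cast; ring
        · push_cast; ring
      rw [e3, e4] at this
      exact this)
    rw [e2]
    refine (norm_add_le _ _).trans ?_
    rw [mul_comm I (φ (a + m + 1) : ℂ), Complex.norm_exp_ofReal_mul_I]
    have : (10 : ℝ) / lo = 6 / lo + 4 / lo := by ring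
    rw [this]
    linarith
  · rw [← h2, Finset.sum_congr (show Ico a (a + 1) = {a} from by
      ext n; rw [Finset.mem_Ico, Finset.mem_singleton]; omega) (fun _ _ => rfl),
      Finset.sum_singleton, mul_comm I (φ a : ℂ), Complex.norm_exp_ofReal_mul_I]
    have : (10 : ℝ) / lo = 6 / lo + 4 / lo := by ring
    rw [this]
    have : 0 ≤ 6 / lo := by positivity
    linarith

theorem BB_le36 {a b : ℤ} (H : ℕ) (N : ℝ) (hH : 1 ≤ H) (hN : 0 < N) :
    ∀ (k : ℕ) (lo hi : ℝ) (φ : ℤ → ℝ) (b' : ℤ), InC36 k lo hi φ a b' → b' ≤ b → 0 < lo → lo ≤ hi →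
      hi * H ^ k ≤ Real.pi →
      BB36 a b H N k (PP36 a b' φ) ≤ 10 / (N * lo) * ((∑ h ∈ Icc 1 H, 1 / (h : ℝ)) / H) ^ k := by
  have hH' : (1 : ℝ) ≤ H := by exact_mod_cast hH
  intro k
  induction k with
  | zero =>
    intro lo hi φ b' hφ hb hlo hlh hpi
    show ‖SS36 a b (PP36 a b' φ)‖ / N ≤ 10 / (N * lo) * ((∑ h ∈ Icc 1 H, 1 / (h : ℝ)) / H) ^ 0
    rw [SS_PP36 hb, pow_zero, mul_one]
    have := kl36 hφ hlo hlh (by simpa using hpi)
    rw [div_le_iff₀ hN]
    refine this.trans (le_of_eq ?_)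
    field_simp
  | succ k ih =>
    intro lo hi φ b' hφ hb hlo hlh hpi
    show (∑ h ∈ Icc 1 H, BB36 a b H N k (DD36 h (PP36 a b' φ))) / H ≤ _
    set L := (∑ h ∈ Icc 1 H, 1 / (h : ℝ)) with hL
    have h1 : ∀ h ∈ Icc 1 H, BB36 a b H N k (DD36 h (PP36 a b' φ)) ≤
        10 / (N * lo) * (L / H) ^ k * (1 / (h : ℝ)) := by
      intro h hh
      rw [Finset.mem_Icc] at hh
      have hh' : (1 : ℝ) ≤ h := by exact_mod_cast hh.1
      have hhH : (h : ℝ) ≤ H := by exact_mod_cast hh.2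
      rw [DD_PP36]
      have := ih (h * lo) (h * hi) _ (b' - h) (InC_diff36 hφ h) (by omega) (by positivity)
        (by gcongr) (by
          have hhi : 0 < hi := lt_of_lt_of_le hlo hlh
          calc (h : ℝ) * hi * H ^ k ≤ H * hi * H ^ k := by gcongr
            _ = hi * H ^ (k + 1) := by ring
            _ ≤ Real.pi := hpi)
      refine this.trans (le_of_eq ?_)
      field_simp
    have h2 := Finset.sum_le_sum h1
    rw [← Finset.mul_sum, ← hL] at h2
    rw [div_le_iff₀ (by linarith)]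
    refine h2.trans (le_of_eq ?_)
    rw [pow_succ]
    field_simp

/-! ### Differences of the logarithm -/

/-- `k! / (x (x + 1) ⋯ (x + k))` -/
noncomputable def gg36 (k : ℕ) (x : ℝ) : ℝ := (k.factorial : ℝ) / ∏ j ∈ range (k + 1), (x + j)

/-- differences of the logarithm up to sign -/
noncomputable def ff36 : ℕ → ℝ → ℝ
  | 0, x => Real.log (x + 1) - Real.log x
  | k + 1, x => ff36 k x - ff36 k (x + 1)

theorem gg_pos36 (k : ℕ) (x : ℝ) (hx : 0 < x) : 0 < gg36 k x := by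
  unfold gg36
  have : 0 < ∏ j ∈ range (k + 1), (x + j) := Finset.prod_pos fun j _ => by positivity
  positivity

theorem gg_anti36 (k : ℕ) (x y : ℝ) (hx : 0 < x) (hxy : x ≤ y) : gg36 k y ≤ gg36 k x := by
  unfold gg36
  have h1 : 0 < ∏ j ∈ range (k + 1), (x + j) := Finset.prod_pos fun j _ => by positivity
  have h2 : ∏ j ∈ range (k + 1), (x + j) ≤ ∏ j ∈ range (k + 1), (y + j) :=
    Finset.prod_le_prod (fun j _ => by positivity) fun j _ => by linarith
  exact div_le_div_of_nonneg_left (Nat.cast_nonneg _) h1 h2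

theorem gg_diff36 (k : ℕ) (x : ℝ) (hx : 0 < x) :
    gg36 k x - gg36 k (x + 1) = gg36 (k + 1) x := by
  unfold gg36
  have h1 : ∏ j ∈ range (k + 1), (x + j) = x * ∏ j ∈ range k, (x + (j + 1)) := by
    rw [Finset.prod_range_succ']
    simp only [Nat.cast_zero, add_zero, Nat.cast_add, Nat.cast_one]
    rw [mul_comm]
  have h2 : ∏ j ∈ range (k + 1), (x + 1 + j) = (∏ j ∈ range k, (x + (j + 1))) * (x + (k + 1)) := by
    rw [Finset.prod_range_succ]
    congr 1
    · exact Finset.prod_congr rfl fun j _ => by ring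
    · ring
  have h3 : ∏ j ∈ range (k + 1 + 1), (x + j) =
      x * (∏ j ∈ range k, (x + (j + 1))) * (x + (k + 1)) := by
    rw [Finset.prod_range_succ, h1]
    push_cast
    ring
  rw [h1, h2, h3, Nat.factorial_succ]
  have hP : 0 < ∏ j ∈ range k, (x + ((j : ℝ) + 1)) := Finset.prod_pos fun j _ => by positivity
  have hk : 0 < x + ((k : ℝ) + 1) := by positivity
  push_cast
  field_simp
  ring

theorem ff_deriv36 : ∀ (k : ℕ) (x : ℝ), 0 < x → HasDerivAt (ff36 k) (-(gg36 (k + 1) x)) x := by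
  intro k
  induction k with
  | zero =>
    intro x hx
    have h1 : HasDerivAt (fun y : ℝ => Real.log (y + 1)) ((x + 1)⁻¹) x :=
      HasDerivAt.comp_add_const x 1 (Real.hasDerivAt_log (show x + 1 ≠ 0 by positivity))
    have h2 := h1.sub (Real.hasDerivAt_log hx.ne')
    have e : (x + 1)⁻¹ - x⁻¹ = -(gg36 (0 + 1) x) := by
      unfold gg36
      simp only [zero_add, Nat.factorial_one, Nat.cast_one, Finset.prod_range_succ,
        Finset.prod_range_zero, Nat.cast_zero, add_zero, one_mul]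
      field_simp
      ring
    rw [← e]
    exact h2
  | succ k ih =>
    intro x hx
    have h1 := ih x hx
    have h2 : HasDerivAt (fun y => ff36 k (y + 1)) (-(gg36 (k + 1) (x + 1))) x :=
      HasDerivAt.comp_add_const x 1 (ih (x + 1) (by positivity))
    have h3 := h1.sub h2
    have e : -(gg36 (k + 1) x) - -(gg36 (k + 1) (x + 1)) = -(gg36 (k + 1 + 1) x) := by
      rw [← gg_diff36 (k + 1) x hx]; ring
    rw [← e]
    exact h3

theorem ff_bd36 (k : ℕ) (x : ℝ) (hx : 0 < x) :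
    gg36 k (x + 1) ≤ ff36 k x ∧ ff36 k x ≤ gg36 k x := by
  rcases k with _ | k
  · obtain ⟨c, hc, hc2⟩ := exists_hasDerivAt_eq_slope Real.log (fun y => y⁻¹)
      (show x < x + 1 by linarith)
      (fun y hy => (Real.continuousAt_log (by have := hy.1; linarith)).continuousWithinAt)
      (fun y hy => Real.hasDerivAt_log (by have := hy.1; linarith))
    have e : ff36 0 x = c⁻¹ := by
      show Real.log (x + 1) - Real.log x = c⁻¹
      rw [hc2, add_sub_cancel_left, div_one]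
    rw [e]
    have e1 : ∀ y : ℝ, gg36 0 y = y⁻¹ := by
      intro y
      unfold gg36
      simp
    rw [e1, e1]
    have := hc.1
    have := hc.2
    exact ⟨inv_anti₀ (by linarith) (by linarith), inv_anti₀ hx (by linarith)⟩
  · obtain ⟨c, hc, hc2⟩ := exists_hasDerivAt_eq_slope (ff36 k) (fun y => -(gg36 (k + 1) y))
      (show x < x + 1 by linarith)
      (fun y hy => (ff_deriv36 k y (by have := hy.1; linarith)).continuousAt.continuousWithinAt)
      (fun y hy => ff_deriv36 k y (by have := hy.1; linarith))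
    have e : ff36 (k + 1) x = gg36 (k + 1) c := by
      show ff36 k x - ff36 k (x + 1) = _
      rw [add_sub_cancel_left, div_one] at hc2
      linarith
    rw [e]
    exact ⟨gg_anti36 _ _ _ (by have := hc.1; linarith) hc.2.le, gg_anti36 _ _ _ hx hc.1.le⟩

theorem dd_log36 (c : ℝ) : ∀ (k : ℕ) (n : ℤ), 1 ≤ n →
    dd36 (k + 1) (fun m => c * Real.log m) n = c * ((-1) ^ k * ff36 k n) := by
  intro k
  induction k with
  | zero =>
    intro n hn
    show c * Real.log ((n + 1 : ℤ) : ℝ) - c * Real.log n =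
      c * ((-1) ^ 0 * (Real.log ((n : ℝ) + 1) - Real.log n))
    push_cast
    ring
  | succ k ih =>
    intro n hn
    show dd36 (k + 1) (fun m => c * Real.log m) (n + 1) - dd36 (k + 1) (fun m => c * Real.log m) n =
      c * ((-1) ^ (k + 1) * (ff36 k n - ff36 k ((n : ℝ) + 1)))
    rw [ih n hn, ih (n + 1) (by omega)]
    push_cast
    ring

theorem InC_log36 (k : ℕ) (N u : ℝ) (a b : ℤ) (hN : 1 ≤ N) (hu : 0 < u) (ha : N ≤ a)
    (hb : (b : ℝ) ≤ 2 * N + 1) :
    InC36 k (u * (k.factorial / (3 * N) ^ (k + 1))) (u * (k.factorial / N ^ (k + 1)))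
      (fun m => (u * (-1) ^ k) * Real.log m) a b := by
  have hk : (0 : ℝ) < k.factorial := by exact_mod_cast Nat.factorial_pos k
  have hsq : ((-1 : ℝ) ^ k) * (-1) ^ k = 1 := by
    rw [← mul_pow]; norm_num
  have ha1 : 1 ≤ a := by
    have : (1 : ℝ) ≤ a := hN.trans ha
    exact_mod_cast this
  have key : ∀ n : ℤ, a ≤ n →
      dd36 (k + 1) (fun m => (u * (-1) ^ k) * Real.log m) n = u * ff36 k n := by
    intro n hn
    rw [dd_log36 _ k n (by omega)]
    linear_combination (u * ff36 k n) * hsq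
  refine ⟨fun n hn hn2 => ?_, fun n hn hn2 => ?_⟩
  · rw [key n hn]
    have hn' : (a : ℝ) ≤ n := by exact_mod_cast hn
    have hn0 : (0 : ℝ) < n := by linarith
    obtain ⟨h1, h2⟩ := ff_bd36 k n hn0
    constructor
    · refine mul_le_mul_of_nonneg_left (le_trans ?_ h1) hu.le
      unfold gg36
      have h3 : 0 < ∏ j ∈ range (k + 1), ((n : ℝ) + 1 + j) :=
        Finset.prod_pos fun j _ => by positivity
      apply div_le_div_of_nonneg_left hk.le h3
      calc ∏ j ∈ range (k + 1), ((n : ℝ) + 1 + j) ≤ ∏ _j ∈ range (k + 1), (3 * N) := by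
            refine Finset.prod_le_prod (fun j _ => by positivity) fun j hj => ?_
            have hj' : (j : ℝ) ≤ k := by
              have := Finset.mem_range.1 hj
              exact_mod_cast (show j ≤ k by omega)
            have h4 : (n : ℝ) + k + 1 ≤ b := by exact_mod_cast hn2.le
            linarith
        _ = (3 * N) ^ (k + 1) := by rw [Finset.prod_const, card_range]
    · refine mul_le_mul_of_nonneg_left (h2.trans ?_) hu.le
      unfold gg36
      apply div_le_div_of_nonneg_left hk.le (by positivity)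
      calc N ^ (k + 1) = ∏ _j ∈ range (k + 1), N := by rw [Finset.prod_const, card_range]
        _ ≤ ∏ j ∈ range (k + 1), ((n : ℝ) + j) := by
            refine Finset.prod_le_prod (fun j _ => by positivity) fun j hj => ?_
            have : (0 : ℝ) ≤ j := Nat.cast_nonneg _
            linarith
  · rw [key n hn, key (n + 1) (by omega)]
    refine mul_le_mul_of_nonneg_left ?_ hu.le
    have hn' : (a : ℝ) ≤ n := by exact_mod_cast hn
    have hn0 : (0 : ℝ) < n := by linarith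
    have h1 := (ff_bd36 (k + 1) n hn0).1
    have h2 := gg_pos36 (k + 1) ((n : ℝ) + 1) (by linarith)
    have h3 : ff36 (k + 1) n = ff36 k n - ff36 k ((n : ℝ) + 1) := rfl
    push_cast
    linarith

/-! ### The bound -/

theorem cast_sum36 (a b : ℕ) (F : ℕ → ℂ) (G : ℤ → ℂ) (h : ∀ n : ℕ, F n = G n) :
    ∑ n ∈ Ioc a b, F n = ∑ n ∈ Ico ((a : ℤ) + 1) ((b : ℤ) + 1), G n := by
  apply Finset.sum_bij' (fun (n : ℕ) _ => (n : ℤ)) (fun (n : ℤ) _ => n.toNat)
  · intro n hn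
    rw [Finset.mem_Ioc] at hn
    rw [Finset.mem_Ico]; omega
  · intro n hn
    rw [Finset.mem_Ico] at hn
    rw [Finset.mem_Ioc]; omega
  · intro n hn; omega
  · intro n hn
    rw [Finset.mem_Ico] at hn
    omega
  · intro n hn
    exact h n

/-- the exponential sum -/
noncomputable def EE36 (u : ℝ) (a b : ℕ) : ℂ := ∑ n ∈ Ioc a b, exp (I * ((u * Real.log n : ℝ) : ℂ))

theorem EE_neg36 (u : ℝ) (a b : ℕ) : ‖EE36 (-u) a b‖ = ‖EE36 u a b‖ := by
  have : EE36 (-u) a b = (starRingEnd ℂ) (EE36 u a b) := by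
    unfold EE36
    rw [map_sum]
    refine Finset.sum_congr rfl fun n _ => ?_
    rw [← Complex.exp_conj, map_mul, Complex.conj_I, Complex.conj_ofReal]
    congr 1
    push_cast
    ring
  rw [this, RCLike.norm_conj]

theorem EE_triv36 (u : ℝ) (a b : ℕ) (N : ℝ) (ha : N ≤ a) (hb : (b : ℝ) ≤ 2 * N) (hN : 0 ≤ N) :
    ‖EE36 u a b‖ ≤ N := by
  unfold EE36
  refine (norm_sum_le _ _).trans ?_
  have : ∀ n ∈ Ioc a b, ‖exp (I * ((u * Real.log n : ℝ) : ℂ))‖ ≤ 1 := by
    intro n _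
    rw [mul_comm, Complex.norm_exp_ofReal_mul_I]
  refine (Finset.sum_le_sum this).trans ?_
  rw [Finset.sum_const, nsmul_eq_mul, mul_one, Nat.card_Ioc]
  rcases le_total a b with h | h
  · rw [Nat.cast_sub h]; linarith
  · rw [Nat.sub_eq_zero_of_le h]; simpa using hN

/-- the sign of the phase does not matter -/
theorem EE_sign36 (u : ℝ) (k a b : ℕ) :
    ‖EE36 u a b‖ = ‖∑ n ∈ Ico ((a : ℤ) + 1) ((b : ℤ) + 1),
      exp (I * ((fun m : ℤ => (u * (-1) ^ k) * Real.log m) n : ℝ))‖ := by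
  have e : ∀ v : ℝ, EE36 v a b = ∑ n ∈ Ico ((a : ℤ) + 1) ((b : ℤ) + 1),
      exp (I * ((v * Real.log n : ℝ) : ℂ)) := fun v =>
    cast_sum36 a b _ (fun n : ℤ => exp (I * ((v * Real.log n : ℝ) : ℂ))) fun n => by
      simp
  simp only
  rw [← e (u * (-1) ^ k)]
  rcases neg_one_pow_eq_or ℝ k with h | h
  · rw [h, mul_one]
  · rw [h, mul_neg, mul_one, EE_neg36]

/-- small frequencies -/
theorem EE_small36 (u : ℝ) (a b : ℕ) (N : ℝ) (hN : 1 ≤ N) (hu : 0 < u) (huN : u ≤ N)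
    (ha : N ≤ a) (hb : (b : ℝ) ≤ 2 * N) : ‖EE36 u a b‖ ≤ 30 * (N / u) := by
  rw [EE_sign36 u 0]
  have h := InC_log36 0 N u ((a : ℤ) + 1) ((b : ℤ) + 1) hN hu (by push_cast; linarith)
    (by push_cast; linarith)
  have h2 := kl36 h (by positivity) (by gcongr; linarith) (by
    simp only [Nat.factorial_zero, Nat.cast_one, zero_add, pow_one]
    have : u * (1 / N) ≤ 1 := by
      rw [mul_one_div, div_le_one (by linarith)]; exact huN
    linarith [Real.pi_gt_three])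
  refine h2.trans (le_of_eq ?_)
  simp only [Nat.factorial_zero, Nat.cast_one, zero_add, pow_one]
  field_simp
  ring

theorem harm36 (H : ℕ) (N : ℝ) (hH : 1 ≤ H) (hHN : (H : ℝ) ≤ N) :
    ∑ h ∈ Icc 1 H, 1 / (h : ℝ) ≤ 1 + Real.log N := by
  have h1 := harmonic_le_one_add_log H
  have h2 : ((harmonic H : ℚ) : ℝ) = ∑ h ∈ Icc 1 H, 1 / (h : ℝ) := by
    rw [harmonic_eq_sum_Icc]
    push_cast
    exact Finset.sum_congr rfl fun x _ => (one_div _).symm
  rw [h2] at h1
  have h3 : Real.log H ≤ Real.log N := Real.log_le_log (by exact_mod_cast hH) hHN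
  linarith

theorem EE_large36 (K : ℕ) (hK : 1 ≤ K) (u : ℝ) (a b : ℕ) (N : ℝ)
    (hNK : (K.factorial : ℝ) ^ 2 ≤ N) (hu : 0 < u) (hu1 : Real.sqrt N ≤ u) (hu2 : u ≤ N ^ K)
    (ha : N ≤ a) (hb : (b : ℝ) ≤ 2 * N) (hab : a ≤ b) :
    (‖EE36 u a b‖ / N) ^ (2 ^ K) ≤
      CC36 K * (2 + 10 * 3 ^ (K + 1) * (2 * (1 + 4 * K)) ^ K) * N ^ (-(1 / (4 * K) : ℝ)) := by
  have hKf : (1 : ℝ) ≤ K.factorial := by exact_mod_cast Nat.factorial_pos K
  have hN : 1 ≤ N := le_trans (by nlinarith) hNK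
  have hN0 : 0 < N := by linarith
  have hK' : (1 : ℝ) ≤ K := by exact_mod_cast hK
  have hs1 : 1 ≤ Real.sqrt N := Real.one_le_sqrt.2 hN
  have hs0 : 0 < Real.sqrt N := by linarith
  have hss : Real.sqrt N * Real.sqrt N = N := Real.mul_self_sqrt hN0.le
  have hsf : (K.factorial : ℝ) ≤ Real.sqrt N := Real.le_sqrt_of_sq_le hNK
  -- the parameter
  set Z : ℝ := N ^ K * Real.sqrt N / u with hZ
  have hZ0 : 0 < Z := by positivity
  have hZ1 : Real.sqrt N ≤ Z := by
    rw [hZ, le_div_iff₀ hu]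
    calc Real.sqrt N * u ≤ Real.sqrt N * N ^ K := by gcongr
      _ = N ^ K * Real.sqrt N := mul_comm _ _
  have hZ2 : Z ≤ N ^ K := by
    rw [hZ, div_le_iff₀ hu]
    gcongr
  set Y : ℝ := Z ^ (1 / (K : ℝ)) with hY
  have hYK : Y ^ K = Z := by
    rw [hY, ← Real.rpow_natCast, ← Real.rpow_mul hZ0.le]
    rw [one_div, inv_mul_cancel₀ (by positivity), Real.rpow_one]
  have hY0 : 0 < Y := Real.rpow_pos_of_pos hZ0 _
  have hY1 : 1 ≤ Y := Real.one_le_rpow (by linarith) (by positivity)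
  have hYN : Y ≤ N := by
    refine le_of_pow_le_pow_left₀ (n := K) (by omega) hN0.le ?_
    rw [hYK]; exact hZ2
  set H : ℕ := ⌊Y⌋₊ with hH
  have hH1 : 1 ≤ H := Nat.le_floor (by simpa using hY1)
  have hH1' : (1 : ℝ) ≤ H := by exact_mod_cast hH1
  have hHY : (H : ℝ) ≤ Y := Nat.floor_le hY0.le
  have hHY2 : Y ≤ 2 * H := by
    have := (Nat.lt_floor_add_one Y).le
    rw [← hH] at this
    linarith
  have hHN : (H : ℝ) ≤ N := hHY.trans hYN
  have hHK : (H : ℝ) ^ K ≤ Z := by rw [← hYK]; gcongr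
  have hHK2 : Z ≤ 2 ^ K * (H : ℝ) ^ K := by
    rw [← hYK, ← mul_pow]; gcongr
  -- the interval
  set A : ℤ := (a : ℤ) + 1 with hA
  set B : ℤ := (b : ℤ) + 1 with hB
  have hAB : A ≤ B := by omega
  have hlen : ((B - A : ℤ) : ℝ) ≤ N := by
    rw [hA, hB]; push_cast; linarith
  set φ : ℤ → ℝ := fun m : ℤ => (u * (-1) ^ K) * Real.log m with hφ
  have hIn := InC_log36 K N u A B hN hu (by rw [hA]; push_cast; linarith)
    (by rw [hB]; push_cast; linarith)
  set lo : ℝ := u * (K.factorial / (3 * N) ^ (K + 1)) with hlo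
  set hi : ℝ := u * (K.factorial / N ^ (K + 1)) with hhi
  have hlo0 : 0 < lo := by positivity
  have hlh : lo ≤ hi := by
    rw [hlo, hhi]
    gcongr
    linarith
  have hpi : hi * H ^ K ≤ Real.pi := by
    have h1 : hi * (H : ℝ) ^ K ≤ hi * Z := by gcongr
    have h2 : hi * Z = K.factorial / Real.sqrt N := by
      rw [hhi, hZ, pow_succ]
      nth_rewrite 2 [← hss]
      field_simp
    have h3 : (K.factorial : ℝ) / Real.sqrt N ≤ 1 := by
      rw [div_le_one hs0]; exact hsf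
    linarith [Real.pi_gt_three]
  have hOk : Ok36 A B (PP36 A B φ) := Ok_PP36 le_rfl φ
  have h1 := BB_pow36 H N hH1 hlen hHN hAB (PP36 A B φ) hOk K
  rw [SS_PP36 le_rfl] at h1
  have h2 := BB_le36 (a := A) (b := B) H N hH1 hN0 K lo hi φ B hIn le_rfl hlo0 hlh hpi
  have hS : ‖EE36 u a b‖ = ‖∑ n ∈ Ico A B, exp (I * φ n)‖ := EE_sign36 u K a b
  rw [hS]
  refine h1.trans ?_
  rw [mul_assoc]
  have hCC := CC_ge36 K
  refine mul_le_mul_of_nonneg_left ?_ (by linarith)
  -- logarithms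
  set L : ℝ := ∑ h ∈ Icc 1 H, 1 / (h : ℝ) with hL
  have hL0 : 0 ≤ L := Finset.sum_nonneg fun h _ => by positivity
  have hLN : L ≤ (1 + 4 * K) * N ^ (1 / (4 * K) : ℝ) := by
    have e1 := harm36 H N hH1 hHN
    have e2 : Real.log N ≤ N ^ (1 / (4 * K) : ℝ) / (1 / (4 * K)) :=
      Real.log_le_rpow_div hN0.le (by positivity)
    have e3 : (1 : ℝ) ≤ N ^ (1 / (4 * K) : ℝ) := Real.one_le_rpow hN (by positivity)
    rw [div_div_eq_mul_div, div_one] at e2
    linarith
  have hLK : L ^ K ≤ (1 + 4 * K) ^ K * N ^ (1 / 4 : ℝ) := by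
    calc L ^ K ≤ ((1 + 4 * K) * N ^ (1 / (4 * K) : ℝ)) ^ K := by gcongr
      _ = (1 + 4 * K) ^ K * N ^ (1 / 4 : ℝ) := by
        rw [mul_pow, ← Real.rpow_natCast (N ^ (1 / (4 * K) : ℝ)), ← Real.rpow_mul hN0.le]
        congr 2
        field_simp
  have hq : Real.sqrt N = N ^ (1 / 2 : ℝ) := Real.sqrt_eq_rpow N
  -- first term
  have t1 : 1 / (H : ℝ) ≤ 2 * N ^ (-(1 / (4 * K) : ℝ)) := by
    have e1 : N ^ (1 / (2 * K) : ℝ) ≤ Y := by
      rw [hY]
      calc N ^ (1 / (2 * K) : ℝ) = (Real.sqrt N) ^ (1 / (K : ℝ)) := by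
            rw [hq, ← Real.rpow_mul hN0.le]
            congr 1
            field_simp
        _ ≤ Z ^ (1 / (K : ℝ)) := Real.rpow_le_rpow hs0.le hZ1 (by positivity)
    have e2 : 1 / (H : ℝ) ≤ 2 / Y := by
      rw [div_le_div_iff₀ (by linarith) hY0]; linarith
    have e3 : 2 / Y ≤ 2 * N ^ (-(1 / (2 * K) : ℝ)) := by
      rw [Real.rpow_neg hN0.le, ← div_eq_mul_inv]
      exact div_le_div_of_nonneg_left (by norm_num) (Real.rpow_pos_of_pos hN0 _) e1
    have e4 : N ^ (-(1 / (2 * K) : ℝ)) ≤ N ^ (-(1 / (4 * K) : ℝ)) := by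
      apply Real.rpow_le_rpow_of_exponent_le hN
      have : (1 : ℝ) / (4 * K) ≤ 1 / (2 * K) := by
        apply div_le_div_of_nonneg_left <;> linarith
      linarith
    linarith
  -- second term
  have t2 : BB36 A B H N K (PP36 A B φ) ≤
      10 * 3 ^ (K + 1) * (2 * (1 + 4 * K)) ^ K * N ^ (-(1 / (4 * K) : ℝ)) := by
    refine h2.trans ?_
    have e1 : 10 / (N * lo) = 10 * 3 ^ (K + 1) * N ^ K / (u * K.factorial) := by
      rw [hlo, mul_pow, pow_succ N]
      field_simp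
    have e2 : (L / H) ^ K ≤ 2 ^ K * L ^ K / Z := by
      rw [div_pow, div_le_div_iff₀ (by positivity) hZ0]
      calc L ^ K * Z ≤ L ^ K * (2 ^ K * (H : ℝ) ^ K) := by gcongr
        _ = 2 ^ K * L ^ K * (H : ℝ) ^ K := by ring
    have e3 : 2 ^ K * L ^ K / Z ≤ 2 ^ K * ((1 + 4 * K) ^ K * N ^ (1 / 4 : ℝ)) / Z := by gcongr
    have e4 : 10 / (N * lo) * (2 ^ K * ((1 + 4 * K) ^ K * N ^ (1 / 4 : ℝ)) / Z) ≤
        10 * 3 ^ (K + 1) * (2 * (1 + 4 * K)) ^ K * N ^ (-(1 / 4) : ℝ) := by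
      rw [e1, hZ, hq, mul_pow]
      have e5 : N ^ (-(1 / 4) : ℝ) = N ^ (1 / 4 : ℝ) / N ^ (1 / 2 : ℝ) := by
        rw [← Real.rpow_sub hN0]; norm_num
      rw [e5]
      have e6 : 10 * 3 ^ (K + 1) * N ^ K / (u * (K.factorial : ℝ)) *
          (2 ^ K * ((1 + 4 * (K : ℝ)) ^ K * N ^ (1 / 4 : ℝ)) / (N ^ K * N ^ (1 / 2 : ℝ) / u)) =
          10 * 3 ^ (K + 1) * (2 ^ K * (1 + 4 * (K : ℝ)) ^ K) *
            (N ^ (1 / 4 : ℝ) / N ^ (1 / 2 : ℝ)) / K.factorial := by
        have : (0 : ℝ) < N ^ (1 / 2 : ℝ) := Real.rpow_pos_of_pos hN0 _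
        field_simp
      rw [e6]
      apply div_le_self _ hKf
      positivity
    have e7 : N ^ (-(1 / 4) : ℝ) ≤ N ^ (-(1 / (4 * K) : ℝ)) := by
      apply Real.rpow_le_rpow_of_exponent_le hN
      have : (1 : ℝ) / (4 * K) ≤ 1 / 4 := by
        apply div_le_div_of_nonneg_left <;> linarith
      linarith
    calc 10 / (N * lo) * (L / H) ^ K
        ≤ 10 / (N * lo) * (2 ^ K * ((1 + 4 * K) ^ K * N ^ (1 / 4 : ℝ)) / Z) := by
          gcongr
          exact e2.trans e3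
      _ ≤ _ := e4.trans (by gcongr)
  calc 1 / (H : ℝ) + BB36 A B H N K (PP36 A B φ)
      ≤ 2 * N ^ (-(1 / (4 * K) : ℝ)) +
        10 * 3 ^ (K + 1) * (2 * (1 + 4 * K)) ^ K * N ^ (-(1 / (4 * K) : ℝ)) := add_le_add t1 t2
    _ = _ := by ring

/-- WEYL: cancellation in `∑ n ^ (i u)` over intervals in `[N, 2 N]` for `|u| ≤ N ^ K`. -/
theorem weyl36 (K : ℕ) (hK : 1 ≤ K) : ∃ c > (0 : ℝ), ∃ C > (0 : ℝ), ∀ (N u : ℝ) (a b : ℕ),
    1 ≤ N → u ≠ 0 → |u| ≤ N ^ K → N ≤ a → (b : ℝ) ≤ 2 * N →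
      ‖∑ n ∈ Ioc a b, exp (I * ((u * Real.log n : ℝ) : ℂ))‖ ≤ C * (N ^ (1 - c) + N / |u|) := by
  have hK' : (1 : ℝ) ≤ K := by exact_mod_cast hK
  set D : ℝ := CC36 K * (2 + 10 * 3 ^ (K + 1) * (2 * (1 + 4 * K)) ^ K) with hD
  have hCC := CC_ge36 K
  have hD1 : 1 ≤ D := by
    have : (0 : ℝ) ≤ 10 * 3 ^ (K + 1) * (2 * (1 + 4 * K)) ^ K := by positivity
    rw [hD]; nlinarith
  set c : ℝ := 1 / (4 * K * 2 ^ K) with hc
  have hc0 : 0 < c := by positivity
  have hc1 : c ≤ 1 := by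
    rw [hc, div_le_one (by positivity)]
    have : (1 : ℝ) ≤ 2 ^ K := one_le_pow₀ (by norm_num)
    nlinarith
  refine ⟨c, hc0, max D (max 30 ((K.factorial : ℝ) ^ 2)), by positivity, ?_⟩
  intro N u a b hN hu huK ha hb
  have hN0 : 0 < N := by linarith
  show ‖EE36 u a b‖ ≤ _
  have hu0 : 0 < |u| := abs_pos.2 hu
  have hEE : ‖EE36 u a b‖ = ‖EE36 |u| a b‖ := by
    rcases abs_choice u with h | h
    · rw [h]
    · rw [h, EE_neg36]
  rw [hEE]
  have hpc : 0 < N ^ (1 - c) := Real.rpow_pos_of_pos hN0 _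
  have hpu : 0 < N / |u| := by positivity
  rcases lt_or_ge b a with hab | hab
  · have : EE36 |u| a b = 0 := by
      unfold EE36
      rw [Finset.Ioc_eq_empty (by omega), Finset.sum_empty]
    rw [this, norm_zero]
    positivity
  rcases lt_or_ge N ((K.factorial : ℝ) ^ 2) with h1 | h1
  · -- small N
    have e1 := EE_triv36 |u| a b N ha hb hN0.le
    have e2 : N = N ^ c * N ^ (1 - c) := by
      rw [← Real.rpow_add hN0]; simp
    have e3 : N ^ c ≤ N := by
      calc N ^ c ≤ N ^ (1 : ℝ) := Real.rpow_le_rpow_of_exponent_le hN hc1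
        _ = N := Real.rpow_one N
    calc ‖EE36 |u| a b‖ ≤ N := e1
      _ = N ^ c * N ^ (1 - c) := e2
      _ ≤ (K.factorial : ℝ) ^ 2 * N ^ (1 - c) := by gcongr; linarith
      _ ≤ max D (max 30 ((K.factorial : ℝ) ^ 2)) * N ^ (1 - c) := by
          gcongr; exact (le_max_right _ _).trans (le_max_right _ _)
      _ ≤ max D (max 30 ((K.factorial : ℝ) ^ 2)) * (N ^ (1 - c) + N / |u|) := by
          gcongr; linarith
  rcases le_or_gt |u| (Real.sqrt N) with h2 | h2
  · have h3 : Real.sqrt N ≤ N := by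
      rw [Real.sqrt_le_left hN0.le]; nlinarith
    have e1 := EE_small36 |u| a b N hN hu0 (h2.trans h3) ha hb
    calc ‖EE36 |u| a b‖ ≤ 30 * (N / |u|) := e1
      _ ≤ max D (max 30 ((K.factorial : ℝ) ^ 2)) * (N / |u|) := by
          gcongr; exact (le_max_left _ _).trans (le_max_right _ _)
      _ ≤ max D (max 30 ((K.factorial : ℝ) ^ 2)) * (N ^ (1 - c) + N / |u|) := by
          gcongr; linarith
  · have e1 := EE_large36 K hK |u| a b N h1 hu0 h2.le huK ha hb hab
    rw [← hD] at e1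
    have e2 : (N ^ (-c)) ^ (2 ^ K) = N ^ (-(1 / (4 * K) : ℝ)) := by
      rw [← Real.rpow_natCast (N ^ (-c)), ← Real.rpow_mul hN0.le]
      congr 1
      rw [hc]
      push_cast
      field_simp
    have e3 : (‖EE36 |u| a b‖ / N) ^ (2 ^ K) ≤ (D * N ^ (-c)) ^ (2 ^ K) := by
      refine e1.trans ?_
      rw [mul_pow, e2]
      have : D ≤ D ^ (2 ^ K) := le_self_pow₀ hD1 (by positivity)
      gcongr
    have e4 : ‖EE36 |u| a b‖ / N ≤ D * N ^ (-c) :=
      le_of_pow_le_pow_left₀ (by positivity) (by positivity) e3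
    rw [div_le_iff₀ hN0] at e4
    have e5 : N ^ (-c) * N = N ^ (1 - c) := by
      have : N ^ (-c) * N = N ^ (-c) * N ^ (1 : ℝ) := by rw [Real.rpow_one]
      rw [this, ← Real.rpow_add hN0]
      congr 1
      ring
    calc ‖EE36 |u| a b‖ ≤ D * N ^ (-c) * N := e4
      _ = D * N ^ (1 - c) := by rw [mul_assoc, e5]
      _ ≤ max D (max 30 ((K.factorial : ℝ) ^ 2)) * N ^ (1 - c) := by
          gcongr; exact le_max_left _ _
      _ ≤ max D (max 30 ((K.factorial : ℝ) ^ 2)) * (N ^ (1 - c) + N / |u|) := by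
          gcongr; linarith

end Pool.Agent.MR36
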